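import Pool.Agent.helper61.Y2.Spec

set_option autoImplicit false

namespace H61.Y2

open H61.Yorioka Cardinal

theorem X1_lin (i : ℕ) (hi : 3 ≤ i) : 2 * i + 1 ≤ 2 ^ i := by
  induction i, hi using Nat.le_induction with
  | base => norm_num
  | succ i _ ih =>
    rw [pow_succ]
    omega

theorem X1_KK (i : ℕ) : KK (i + 1) = KK i * KK i := by
  unfold KK
  rw [← pow_add, pow_succ]
  ring_nf

theorem X1_ineq (i : ℕ) (hi : 3 ≤ i) : (KK i + 1) * 2 ^ i * i ≤ KK (i + 1) := by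
  rw [X1_KK]
  have h1 : 2 * 2 ^ i * i ≤ KK i := by
    have h2 : i ≤ 2 ^ i := (Nat.lt_pow_self (by norm_num)).le
    calc 2 * 2 ^ i * i ≤ 2 * 2 ^ i * 2 ^ i := Nat.mul_le_mul_left _ h2
      _ = 2 ^ (2 * i + 1) := by ring
      _ ≤ 2 ^ 2 ^ i := Nat.pow_le_pow_right (by norm_num) (X1_lin i hi)
  have h3 : 1 ≤ KK i := Nat.one_le_two_pow
  calc (KK i + 1) * 2 ^ i * i ≤ (2 * KK i) * 2 ^ i * i := by
        apply Nat.mul_le_mul_right
        apply Nat.mul_le_mul_right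
        omega
    _ = KK i * (2 * 2 ^ i * i) := by ring
    _ ≤ KK i * KK i := Nat.mul_le_mul_left _ h1

theorem X1 : X1_stmt := by
  intro f hf
  refine ⟨3, fun i hi => ?_⟩
  have h1 : ∀ j ∈ JX f i, (2 ^ (2 ^ f (KK j)) + 1) ^ KK j ≤ 2 ^ ((KK i + 1) * 2 ^ i) := by
    intro j hj
    unfold JX ii at hj
    rw [Finset.mem_filter] at hj
    have h2 : f (KK j) ≤ 2 ^ i := by
      have h := Nat.le_pow_clog (b := 2) (by norm_num) (f (KK j))
      rw [hj.2] at h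
      exact h
    have h3 : KK j ≤ 2 ^ i := le_trans hf.le_apply h2
    have h4 : 2 ^ f (KK j) ≤ KK i := Nat.pow_le_pow_right (by norm_num) h2
    calc (2 ^ (2 ^ f (KK j)) + 1) ^ KK j ≤ (2 ^ (KK i + 1)) ^ KK j := by
          apply Nat.pow_le_pow_left
          have h5 : 2 ^ (2 ^ f (KK j)) ≤ 2 ^ KK i := Nat.pow_le_pow_right (by norm_num) h4
          have h6 : 1 ≤ 2 ^ KK i := Nat.one_le_two_pow
          rw [pow_succ]
          omega
      _ ≤ (2 ^ (KK i + 1)) ^ (2 ^ i) := Nat.pow_le_pow_right (by positivity) h3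
      _ = 2 ^ ((KK i + 1) * 2 ^ i) := (pow_mul _ _ _).symm
  have hcard : (JX f i).card ≤ i := by
    unfold JX
    refine (Finset.card_filter_le _ _).trans ?_
    rw [Finset.card_range]
  calc ∏ j ∈ JX f i, (2 ^ (2 ^ f (KK j)) + 1) ^ KK j
      ≤ (2 ^ ((KK i + 1) * 2 ^ i)) ^ (JX f i).card := Finset.prod_le_pow_card _ _ _ h1
    _ ≤ (2 ^ ((KK i + 1) * 2 ^ i)) ^ i := Nat.pow_le_pow_right (by positivity) hcard
    _ = 2 ^ ((KK i + 1) * 2 ^ i * i) := (pow_mul _ _ _).symm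
    _ ≤ 2 ^ KK (i + 1) := Nat.pow_le_pow_right (by norm_num) (X1_ineq i hi)

end H61.Y2
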